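import Pool.Agent.N912.MS.Stm2
import Pool.Agent.N570.MS.Fin

/-!
# Project MS (helper912), part MS17 (helper700): the inner limits are zero if `|f|` has mean value zero
-/

set_option autoImplicit false

namespace Pool.Agent.N700.MS

open Finset Filter
open Pool.Agent.W78.GA (Qd nm ball)
open Pool.Agent.N912.MS Pool.Agent.N570.MS

lemma nm_eq (z : Gi) : (nm z : ℤ) = z.re ^ 2 + z.im ^ 2 := by
  unfold nm
  rw [zero_mul, zero_mul, add_zero, one_mul]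
  exact Int.natAbs_of_nonneg (by positivity)

lemma mem_ball' {X : ℝ} {z : Gi} (h0 : z ≠ 0) (h : (nm z : ℝ) ≤ X) : z ∈ ball 0 1 X := by
  have h1 := nm_eq z
  have hn : 1 ≤ nm z := by
    by_contra hc
    have h2 : nm z = 0 := by omega
    rw [h2, Nat.cast_zero] at h1
    have h3 : z.re = 0 := by nlinarith [sq_nonneg z.re, sq_nonneg z.im]
    have h4 : z.im = 0 := by nlinarith [sq_nonneg z.re, sq_nonneg z.im]
    exact h0 (gext h3 h4)
  have hX : nm z ≤ ⌊X⌋₊ := Nat.le_floor h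
  have hXi : (nm z : ℤ) ≤ (⌊X⌋₊ : ℤ) := by exact_mod_cast hX
  have hbx : ((Pool.Agent.W78.GA.bx 1 X : ℕ) : ℤ) = 8 * ((⌊X⌋₊ : ℤ) + 1) := by
    unfold Pool.Agent.W78.GA.bx
    simp
  have habs : ∀ a : ℤ, |a| ≤ a ^ 2 := by
    intro a
    rw [← sq_abs]
    rcases eq_or_ne a 0 with h | h
    · simp [h]
    · have : 1 ≤ |a| := Int.one_le_abs h
      nlinarith
  have hre : |z.re| ≤ 8 * ((⌊X⌋₊ : ℤ) + 1) := by
    have := habs z.re
    nlinarith [sq_nonneg z.im]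
  have him : |z.im| ≤ 8 * ((⌊X⌋₊ : ℤ) + 1) := by
    have := habs z.im
    nlinarith [sq_nonneg z.re]
  rw [abs_le] at hre him
  unfold ball
  rw [mem_filter]
  refine ⟨mem_image.2 ⟨(z.re, z.im), ?_, rfl⟩, hn, h⟩
  rw [mem_product, mem_Icc, mem_Icc]
  simp only [hbx]
  exact ⟨hre, him⟩

/-- the mean value over squares -/
lemma sq_small {f : Gi → ℝ} (hf : ∀ z, |f z| ≤ 1) (hm : MZ (fun z => |f z|)) {ε : ℝ} (hε : 0 < ε) :
    ∃ R₀ : ℕ, ∀ R : ℕ, R₀ ≤ R → ∑ z ∈ bx2 R, |f z| ≤ ε * (R : ℝ) ^ 2 := by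
  classical
  obtain ⟨X₀, hX₀⟩ := hm (ε / 4) (by linarith)
  obtain ⟨A, hA⟩ := exists_nat_gt (max X₀ (2 / ε))
  rw [max_lt_iff] at hA
  refine ⟨A + 1, fun R hR => ?_⟩
  have hR1 : (1 : ℝ) ≤ R := by exact_mod_cast (by omega : 1 ≤ R)
  have hRA : (A : ℝ) ≤ R := by exact_mod_cast (by omega : A ≤ R)
  have h1 := hX₀ (2 * (R : ℝ) ^ 2) (by nlinarith [hA.1])
  have h2 : 2 ≤ ε * R := by
    have := hA.2
    rw [div_lt_iff₀ hε] at this
    nlinarith
  have h3 : bx2 R ⊆ insert 0 (ball 0 1 (2 * (R : ℝ) ^ 2)) := by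
    intro z hz
    rw [mem_insert]
    by_cases h0 : z = 0
    · exact Or.inl h0
    · right
      rw [mem_bx2] at hz
      apply mem_ball' h0
      have h4 := nm_eq z
      have h5 : z.re ^ 2 ≤ (R : ℤ) ^ 2 := sq_le_sq' (by linarith [hz.1.1]) hz.1.2
      have h6 : z.im ^ 2 ≤ (R : ℤ) ^ 2 := sq_le_sq' (by linarith [hz.2.1]) hz.2.2
      have h7 : (nm z : ℤ) ≤ 2 * (R : ℤ) ^ 2 := by linarith
      exact_mod_cast h7
  have h4 : ∑ z ∈ bx2 R, |f z| ≤ |f 0| + ∑ z ∈ ball 0 1 (2 * (R : ℝ) ^ 2), |f z| := by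
    refine (sum_le_sum_of_subset_of_nonneg h3 fun _ _ _ => abs_nonneg _).trans ?_
    by_cases h5 : (0 : Gi) ∈ ball 0 1 (2 * (R : ℝ) ^ 2)
    · rw [insert_eq_of_mem h5]
      linarith [abs_nonneg (f 0)]
    · rw [sum_insert h5]
  have h5 := (le_abs_self _).trans h1
  have h6 := hf 0
  have h7 : 1 ≤ ε / 2 * (R : ℝ) ^ 2 := by nlinarith
  calc ∑ z ∈ bx2 R, |f z| ≤ |f 0| + ∑ z ∈ ball 0 1 (2 * (R : ℝ) ^ 2), |f z| := h4
    _ ≤ 1 + ε / 4 * (2 * (R : ℝ) ^ 2) := add_le_add h6 h5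
    _ ≤ ε * (R : ℝ) ^ 2 := by linarith

/-- the inner average -/
lemma inner_le (f : Gi → ℝ) (S : Finset Gi) (n : Gi) :
    |avg {h | h ≠ 0 ∧ ∃ u ∈ (S : Set Gi), h = n + u} f| ≤ ∑ u ∈ S, |f (n + u)| := by
  classical
  rw [sh_coe, avg_coe]
  have h1 : ∑ z ∈ sh S n, |f z| ≤ ∑ u ∈ S, |f (n + u)| := by
    rw [← sum_image (s := S) (g := fun u => n + u) (f := fun z => |f z|)
      (fun u _ v _ h => add_left_cancel h)]
    exact sum_le_sum_of_subset_of_nonneg (erase_subset _ _) fun _ _ _ => abs_nonneg _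
  refine le_trans ?_ h1
  rcases Nat.eq_zero_or_pos (sh S n).card with h0 | h0
  · rw [h0]
    simp only [Nat.cast_zero, div_zero, abs_zero]
    exact sum_nonneg fun _ _ => abs_nonneg _
  · have h2 : (1 : ℝ) ≤ ((sh S n).card : ℝ) := by exact_mod_cast h0
    rw [abs_div, abs_of_pos (by linarith : (0 : ℝ) < (sh S n).card),
      div_le_iff₀ (by linarith)]
    have h3 : 0 ≤ ∑ z ∈ sh S n, |f z| := sum_nonneg fun _ _ => abs_nonneg _
    have h4 := abs_sum_le_sum_abs f (sh S n)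
    nlinarith

lemma avg_nonneg' (Ψ : Finset Gi) (g : Gi → ℝ) (hg : ∀ n, 0 ≤ g n) : 0 ≤ avg (Ψ : Set Gi) g := by
  rw [avg_coe]
  exact div_nonneg (sum_nonneg fun n _ => hg n) (Nat.cast_nonneg _)

/-- the outer average -/
lemma outer_le (f : Gi → ℝ) (S Ψ : Finset Gi) (R : ℕ) (hR : ∀ n ∈ Ψ, ∀ u ∈ S, n + u ∈ bx2 R)
    {c₁ η : ℝ} (hη : 0 ≤ η) (hc : (R : ℝ) ^ 2 ≤ c₁ * Ψ.card) (hc₁ : 0 ≤ c₁)
    (hS : ∑ z ∈ bx2 R, |f z| ≤ η * (R : ℝ) ^ 2) :
    avg (Ψ : Set Gi) (fun n => |avg {h | h ≠ 0 ∧ ∃ u ∈ (S : Set Gi), h = n + u} f|) ≤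
      S.card * η * c₁ := by
  classical
  rw [avg_coe]
  have h1 : ∑ n ∈ Ψ, |avg {h | h ≠ 0 ∧ ∃ u ∈ (S : Set Gi), h = n + u} f| ≤
      S.card * (η * (R : ℝ) ^ 2) := by
    refine (sum_le_sum fun n _ => inner_le f S n).trans ?_
    rw [sum_comm, ← nsmul_eq_mul, ← sum_const]
    refine sum_le_sum fun u hu => le_trans ?_ hS
    rw [← sum_image (s := Ψ) (g := fun n => n + u) (f := fun z => |f z|)
      (fun a _ b _ h => add_right_cancel h)]
    apply sum_le_sum_of_subset_of_nonneg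
    · intro z hz
      obtain ⟨n, hn, rfl⟩ := mem_image.1 hz
      exact hR n hn u hu
    · intros
      exact abs_nonneg _
  have h2 : (0 : ℝ) ≤ S.card * η * c₁ := by positivity
  refine div_le_of_le_mul₀ (Nat.cast_nonneg _) h2 ?_
  refine h1.trans ?_
  calc S.card * (η * (R : ℝ) ^ 2) ≤ S.card * (η * (c₁ * Ψ.card)) := by gcongr
    _ = S.card * η * c₁ * Ψ.card := by ring

/-- a bound for the coordinates of the elements of a finite set -/
lemma bdS (S : Finset Gi) : ∃ D : ℕ, ∀ τ ∈ S, |τ.re| ≤ D ∧ |τ.im| ≤ D := by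
  refine ⟨S.sup fun τ => τ.re.natAbs + τ.im.natAbs, fun τ hτ => ?_⟩
  have h1 : τ.re.natAbs + τ.im.natAbs ≤ S.sup fun τ => τ.re.natAbs + τ.im.natAbs :=
    Finset.le_sup (f := fun τ : Gi => τ.re.natAbs + τ.im.natAbs) hτ
  rw [Int.abs_eq_natAbs, Int.abs_eq_natAbs]
  exact ⟨Int.ofNat_le.2 ((Nat.le_add_right _ _).trans h1),
    Int.ofNat_le.2 ((Nat.le_add_left _ _).trans h1)⟩

lemma to_zero {g : ℕ → ℝ} (h0 : ∀ N, 0 ≤ g N)
    (h : ∀ ε : ℝ, 0 < ε → ∃ N₀ : ℕ, ∀ N : ℕ, N₀ ≤ N → g N ≤ ε) : Tendsto g atTop (nhds 0) := by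
  rw [Metric.tendsto_atTop]
  intro ε hε
  obtain ⟨N₀, hN₀⟩ := h (ε / 2) (by linarith)
  refine ⟨N₀, fun N hN => ?_⟩
  rw [dist_zero_right, Real.norm_eq_abs, abs_of_nonneg (h0 N)]
  linarith [hN₀ N hN]

/-- **MS17** -/
theorem limz : S_LIMZ := by
  classical
  intro f hf hm S
  obtain ⟨D, hD⟩ := bdS S
  have hD0 : (0 : ℝ) ≤ D := Nat.cast_nonneg D
  have hη : ∀ c₁ ε : ℝ, 0 < c₁ → 0 < ε → 0 < ε / (c₁ * (S.card + 1)) ∧
      (S.card : ℝ) * (ε / (c₁ * (S.card + 1))) * c₁ ≤ ε := by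
    intro c₁ ε h1 h2
    have h3 : (0 : ℝ) < S.card + 1 := by positivity
    refine ⟨by positivity, ?_⟩
    have h4 : (S.card : ℝ) * (ε / (c₁ * (S.card + 1))) * c₁ = ε * (S.card / (S.card + 1)) := by
      field_simp
    rw [h4]
    have h5 : (S.card : ℝ) / (S.card + 1) ≤ 1 := by
      rw [div_le_one h3]
      linarith
    nlinarith
  constructor
  · intro U k hU hk hkt
    have hfin : ∀ N, (dil U (k N)).Finite := fun N => dil_finite hU.bdd (hk N)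
    have hcoe : ∀ N, ((hfin N).toFinset : Set Gi) = dil U (k N) := fun N =>
      Set.Finite.coe_toFinset _
    obtain ⟨C, hC1, hC⟩ := exists_bd hU.bdd
    obtain ⟨c, hc, k₀, hcard⟩ := dil_card hU
    refine to_zero (fun N => ?_) fun ε hε => ?_
    · rw [← hcoe N]
      exact avg_nonneg' _ _ fun n => abs_nonneg _
    · have hc₁ : 0 < (C + 1) ^ 2 / c := by positivity
      obtain ⟨hη1, hη2⟩ := hη _ ε hc₁ hε
      obtain ⟨R₀, hR₀⟩ := sq_small hf hm hη1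
      have hev := hkt.eventually_ge_atTop (max (max k₀ 1) (max (R₀ : ℝ) (D + 1)))
      rw [Filter.eventually_atTop] at hev
      obtain ⟨N₀, hN₀⟩ := hev
      refine ⟨N₀, fun N hN => ?_⟩
      have hkN := hN₀ N hN
      rw [max_le_iff, max_le_iff, max_le_iff] at hkN
      obtain ⟨⟨hn0, hn1⟩, hn2, hn3⟩ := hkN
      set Ψ : Finset Gi := (hfin N).toFinset with hΨdef
      have hΨ : (Ψ : Set Gi) = dil U (k N) := hcoe N
      have hΨ' : ∀ u, u ∈ Ψ ↔ u ∈ dil U (k N) := fun u => by rw [← mem_coe, hΨ]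
      have hcΨ := hcard (k N) hn0 (hk N) Ψ hΨ
      rw [← hΨ]
      have hceil1 := Nat.le_ceil (C * k N)
      have hceil2 := Nat.ceil_lt_add_one (show 0 ≤ C * k N by positivity)
      have hRR : R₀ ≤ ⌈C * k N⌉₊ + D := by
        have h2 : k N ≤ C * k N := by nlinarith
        have h3 : (R₀ : ℝ) ≤ ((⌈C * k N⌉₊ + D : ℕ) : ℝ) := by
          push_cast
          linarith
        exact_mod_cast h3
      refine (outer_le f S Ψ (⌈C * k N⌉₊ + D) ?_ hη1.le ?_ hc₁.le (hR₀ _ hRR)).trans hη2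
      · intro n hn u hu
        obtain ⟨h1, h2⟩ := dil_bx hC (hk N) ((hΨ' n).1 hn)
        obtain ⟨h3, h4⟩ := hD u hu
        rw [mem_bx2]
        simp only [QuadraticAlgebra.re_add, QuadraticAlgebra.im_add]
        rw [abs_le] at h1 h2 h3 h4
        push_cast
        constructor
        · constructor <;> linarith [h1.1, h1.2, h3.1, h3.2]
        · constructor <;> linarith [h2.1, h2.2, h4.1, h4.2]
      · have h1 : ((⌈C * k N⌉₊ + D : ℕ) : ℝ) ≤ (C + 1) * k N := by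
          push_cast
          nlinarith
        calc ((⌈C * k N⌉₊ + D : ℕ) : ℝ) ^ 2 ≤ ((C + 1) * k N) ^ 2 :=
              pow_le_pow_left₀ (Nat.cast_nonneg _) h1 2
          _ = (C + 1) ^ 2 / c * (c * k N ^ 2) := by
              field_simp
          _ ≤ (C + 1) ^ 2 / c * Ψ.card := mul_le_mul_of_nonneg_left hcΨ hc₁.le
  · refine to_zero (fun N => avg_nonneg' _ _ fun n => abs_nonneg _) fun ε hε => ?_
    obtain ⟨hη1, hη2⟩ := hη 1 ε one_pos hε
    obtain ⟨R₀, hR₀⟩ := sq_small hf hm hη1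
    refine ⟨R₀ + D + 1, fun N hN => ?_⟩
    have hN1 : (D : ℝ) + 1 ≤ N := by exact_mod_cast (by omega : D + 1 ≤ N)
    have hcardN : ((bx2 N).card : ℝ) = (2 * N + 1) ^ 2 := by
      rw [card_bx2]
      push_cast
      ring
    refine (outer_le f S (bx2 N) (N + D) ?_ hη1.le ?_ zero_le_one (hR₀ _ (by omega))).trans hη2
    · intro n hn u hu
      obtain ⟨h3, h4⟩ := hD u hu
      rw [mem_bx2] at hn ⊢
      simp only [QuadraticAlgebra.re_add, QuadraticAlgebra.im_add]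
      rw [abs_le] at h3 h4
      push_cast
      constructor
      · constructor <;> linarith [hn.1.1, hn.1.2, h3.1, h3.2]
      · constructor <;> linarith [hn.2.1, hn.2.2, h4.1, h4.2]
    · rw [hcardN, one_mul]
      apply pow_le_pow_left₀ (Nat.cast_nonneg _)
      push_cast
      linarith

end Pool.Agent.N700.MS
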